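import Mathlib

/-!
# Two-sided continuous monotone families (core descent)

`W` is a well-ordered set which is uncountable and has countable initial segments (`ω₁`).
`Ω` is any set with an ideal `Small`. A monotone family `M` of subsets of `Ω` is good if for
every sequence of sets not in `M` the limsup of the complements is not small.
-/

set_option linter.unusedSectionVars false

namespace Pool.Agent.H18.Star

open Set Filter

/-! ### subadditive functions -/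

/-- functions with one subadditivity property dominating given functions `e z` -/
theorem exists_rho {W K : Type*} [LinearOrder W] [WellFoundedLT W] [LinearOrder K]
    (e : W → W → K)
    (hb : ∀ (z : W) (k : K) (g : W → W → K), ∃ c, ∀ x x', x < z → x' < z → e z x ≤ k →
      e z x' ≤ k → g x x' ≤ c) :
    ∃ ρ : W → W → K, (∀ x y z, x < y → y < z → ρ x y ≤ max (ρ x z) (ρ y z)) ∧
      ∀ x z, e z x ≤ ρ x z := by
  classical
  let F : (z : W) → ((y : W) → y < z → W → K) → W → K := fun z ih x =>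
    max (e z x) (Classical.choose (hb z (e z x) (fun x' x'' =>
      if h : x'' < z then ih x'' h x' else e z x)))
  let R : W → W → K := (wellFounded_lt (α := W)).fix F
  have hR : ∀ z x, R z x = max (e z x) (Classical.choose (hb z (e z x) (fun x' x'' =>
      if x'' < z then R x'' x' else e z x))) := by
    intro z x
    have h := congrFun ((wellFounded_lt (α := W)).fix_eq F z) x
    simpa [R, F] using h
  have hspec : ∀ z x x' x'', x' < z → x'' < z → e z x' ≤ e z x → e z x'' ≤ e z x →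
      R x'' x' ≤ R z x := by
    intro z x x' x'' h1 h2 h3 h4
    have h := Classical.choose_spec (hb z (e z x) (fun x' x'' =>
      if x'' < z then R x'' x' else e z x)) x' x'' h1 h2 h3 h4
    rw [if_pos h2] at h
    rw [hR z x]
    exact h.trans (le_max_right _ _)
  refine ⟨fun x z => R z x, ?_, ?_⟩
  · intro x y z hxy hyz
    rcases le_total (e z y) (e z x) with h | h
    · exact (hspec z x x y (hxy.trans hyz) hyz le_rfl h).trans (le_max_left _ _)
    · exact (hspec z y x y (hxy.trans hyz) hyz h le_rfl).trans (le_max_right _ _)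
  · intro x z
    show e z x ≤ R z x
    rw [hR z x]
    exact le_max_left _ _

section

variable {W : Type*} [LinearOrder W] [WellFoundedLT W]

/-- `ω₁`-like orders -/
structure Om1 (W : Type*) [LinearOrder W] : Prop where
  cnt : ∀ a : W, (Iio a).Countable
  unc : ¬ (univ : Set W).Countable

theorem Om1.exists_gt (h : Om1 W) (Z : Set W) (hZ : Z.Countable) : ∃ c, ∀ z ∈ Z, z < c := by
  have h1 : (⋃ z ∈ Z, Iic z).Countable := by
    refine hZ.biUnion fun z _ => ?_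
    have : Iic z = insert z (Iio z) := by ext x; simp [le_iff_eq_or_lt]
    rw [this]
    exact (h.cnt z).insert z
  have h2 : ∃ c, c ∉ ⋃ z ∈ Z, Iic z := by
    by_contra hcon
    push Not at hcon
    exact h.unc (h1.mono fun c _ => hcon c)
  obtain ⟨c, hc⟩ := h2
  refine ⟨c, fun z hz => ?_⟩
  by_contra hle
  exact hc (mem_biUnion hz (not_lt.1 hle))

theorem Om1.exists_rho1 (h : Om1 W) : ∃ ρ : W → W → ℕ,
    (∀ x y z, x < y → y < z → ρ x y ≤ max (ρ x z) (ρ y z)) ∧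
      ∀ z n, {x | x < z ∧ ρ x z ≤ n}.Finite := by
  classical
  have hinj : ∀ z : W, ∃ f : W → ℕ, InjOn f (Iio z) := fun z =>
    Set.countable_iff_exists_injOn.1 (h.cnt z)
  choose e he using hinj
  have hfin : ∀ z n, {x | x < z ∧ e z x ≤ n}.Finite := by
    intro z n
    refine Set.Finite.of_finite_image ((finite_Iic n).subset ?_) ((he z).mono ?_)
    · rintro _ ⟨x, hx, rfl⟩
      exact hx.2
    · rintro x hx
      exact hx.1
  obtain ⟨ρ, h1, h2⟩ := exists_rho e (by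
    intro z k g
    obtain ⟨c, hc⟩ := (((hfin z k).prod (hfin z k)).image (fun p : W × W => g p.1 p.2)).bddAbove
    refine ⟨c, fun x x' hx hx' h1 h2 => hc ⟨(x, x'), ⟨⟨hx, h1⟩, ⟨hx', h2⟩⟩, rfl⟩⟩)
  exact ⟨ρ, h1, fun z n => (hfin z n).subset fun x hx => ⟨hx.1, (h2 x z).trans hx.2⟩⟩

/-! ### kernels -/

theorem kernel (B : Set W) (hB : ¬ B.Countable) (g : W → Finset W) :
    ∃ K : Finset W, ∀ Z : Set W, Z.Countable → ∃ b ∈ B, b ∉ Z ∧ ∀ x ∈ g b, x ∈ Z → x ∈ K := by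
  classical
  obtain ⟨s, hs⟩ : ∃ s : ℕ, ¬ {b ∈ B | (g b).card ≤ s}.Countable := by
    by_contra hcon
    push Not at hcon
    refine hB ((countable_iUnion hcon).mono fun b hb => ?_)
    exact mem_iUnion.2 ⟨(g b).card, hb, le_rfl⟩
  let P : ℕ → Prop := fun t => ∃ K : Finset W, K.card = t ∧
    ¬ {b ∈ B | (g b).card ≤ s ∧ K ⊆ g b}.Countable
  have hP0 : P 0 := ⟨∅, rfl, by simpa using hs⟩
  have hPle : ∀ t, P t → t ≤ s := by
    rintro t ⟨K, rfl, hK⟩
    by_contra hlt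
    apply hK
    have : {b ∈ B | (g b).card ≤ s ∧ K ⊆ g b} = ∅ := by
      ext b
      simp only [mem_ofPred_eq, mem_empty_iff_false, iff_false, not_and]
      intro _ hb1 hb2
      have := Finset.card_le_card hb2
      omega
    rw [this]
    exact countable_empty
  obtain ⟨K, hKt, hK⟩ : P (Nat.findGreatest P s) :=
    Nat.findGreatest_spec (P := P) (Nat.zero_le s) hP0
  refine ⟨K, fun Z hZ => ?_⟩
  by_contra hcon
  push Not at hcon
  apply hK
  have hsub : {b ∈ B | (g b).card ≤ s ∧ K ⊆ g b} ⊆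
      Z ∪ ⋃ z ∈ Z \ (K : Set W), {b ∈ B | (g b).card ≤ s ∧ insert z K ⊆ g b} := by
    rintro b ⟨hbB, hb1, hb2⟩
    by_cases hbZ : b ∈ Z
    · exact Or.inl hbZ
    · obtain ⟨x, hxg, hxZ, hxK⟩ := hcon b hbB hbZ
      refine Or.inr (mem_biUnion (x := x) ⟨hxZ, by simpa using hxK⟩ ⟨hbB, hb1, ?_⟩)
      exact Finset.insert_subset hxg hb2
  refine Countable.mono hsub (hZ.union ((hZ.mono sdiff_subset).biUnion fun z hz => ?_))
  by_contra hunc
  have hP' : P (Nat.findGreatest P s + 1) := by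
    refine ⟨insert z K, ?_, hunc⟩
    rw [Finset.card_insert_of_notMem (by simpa using hz.2), hKt]
  have := Nat.le_findGreatest (P := P) (hPle _ hP') hP'
  omega

/-! ### the operator -/

variable {Ω : Type*}

open Classical in
/-- symmetric version of `ρ` -/
noncomputable def sy (ρ : W → W → ℕ) (b a : W) : ℕ :=
  if a < b then ρ a b else if b < a then ρ b a else 0

/-- one step -/
def BB (ρ : W → W → ℕ) (ξ : Ω → W) (b : W) (m : ℕ) (X : Set Ω) : Set Ω :=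
  {w | sy ρ b (ξ w) ≤ m ∧ (ξ w < b → w ∈ X)}

theorem BB_mono {ρ : W → W → ℕ} {ξ : Ω → W} {b : W} {m m' : ℕ} {X Y : Set Ω} (hm : m ≤ m')
    (h : X ⊆ Y) : BB ρ ξ b m X ⊆ BB ρ ξ b m' Y :=
  fun _ hw => ⟨hw.1.trans hm, fun hb => h (hw.2 hb)⟩

/-- the operator -/
def Op (ρ : W → W → ℕ) (M : Set (Set Ω)) (ξ : Ω → W) : Set (Set Ω) :=
  {X | ∃ m : ℕ, ¬ {b | BB ρ ξ b m X ∈ M}.Countable}

/-- upward closed families -/
def Up (M : Set (Set Ω)) : Prop := ∀ X Y : Set Ω, X ⊆ Y → X ∈ M → Y ∈ M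

theorem up_Op {ρ : W → W → ℕ} {M : Set (Set Ω)} {ξ : Ω → W} (h : Up M) : Up (Op ρ M ξ) := by
  rintro X Y hXY ⟨m, hm⟩
  exact ⟨m, fun hc => hm (hc.mono fun b hb => h _ _ (BB_mono le_rfl hXY) hb)⟩

/-- good families -/
def Good (Sm : Set Ω → Prop) (M : Set (Set Ω)) : Prop :=
  ∀ X : ℕ → Set Ω, (∀ k, X k ∉ M) → ¬ Sm {w | ∃ᶠ k in atTop, w ∉ X k}

theorem good_Op {ρ : W → W → ℕ} (h1 : Om1 W) {Sm : Set Ω → Prop}
    (hSm : ∀ S T : Set Ω, S ⊆ T → Sm T → Sm S) {M : Set (Set Ω)} {ξ : Ω → W}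
    (h : Good Sm M) : Good Sm (Op ρ M ξ) := by
  intro X hX hsm
  have hc : ∀ k m, {b | BB ρ ξ b m (X k) ∈ M}.Countable := by
    intro k m
    by_contra hcon
    exact hX k ⟨m, hcon⟩
  have hc2 : (⋃ k : ℕ, ⋃ m : ℕ, {b | BB ρ ξ b m (X k) ∈ M}).Countable :=
    countable_iUnion fun k => countable_iUnion fun m => hc k m
  obtain ⟨b, hb⟩ : ∃ b, b ∉ ⋃ k : ℕ, ⋃ m : ℕ, {b | BB ρ ξ b m (X k) ∈ M} := by
    by_contra hcon
    push Not at hcon
    exact h1.unc (hc2.mono fun c _ => hcon c)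
  have hb' : ∀ k m, BB ρ ξ b m (X k) ∉ M := by
    intro k m hmem
    exact hb (mem_iUnion.2 ⟨k, mem_iUnion.2 ⟨m, hmem⟩⟩)
  refine h (fun k => BB ρ ξ b k (X k)) (fun k => hb' k k) (hSm _ _ ?_ hsm)
  intro w hw
  have hev : ∀ᶠ k : ℕ in atTop, sy ρ b (ξ w) ≤ k := eventually_ge_atTop _
  refine (hw.and_eventually hev).mono ?_
  rintro k ⟨hk1, hk2⟩ hwX
  exact hk1 ⟨hk2, fun _ => hwX⟩

/-! ### backing down -/

/-- `uncountably many b_{j-1}, …, uncountably many b_0` -/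
def QQ (ρ : W → W → ℕ) (M : Set (Set Ω)) (ξ : ℕ → Ω → W) (N : ℕ) : ℕ → Set Ω → Prop
  | 0, X => X ∈ M
  | (j + 1), X => ¬ {b | QQ ρ M ξ N j (BB ρ (ξ j) b N X)}.Countable

theorem QQ_mono {ρ : W → W → ℕ} {M : Set (Set Ω)} {ξ : ℕ → Ω → W} (hM : Up M) {N N' : ℕ}
    (hN : N ≤ N') : ∀ (j : ℕ) {X Y : Set Ω}, X ⊆ Y → QQ ρ M ξ N j X → QQ ρ M ξ N' j Y
  | 0, _, _, hXY, h => hM _ _ hXY h
  | (j + 1), _, _, hXY, h => fun hc => h (hc.mono fun _ hb =>
      QQ_mono hM hN j (BB_mono hN hXY) hb)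

theorem exists_QQ {ρ : W → W → ℕ} (M : ℕ → Set (Set Ω)) (ξ : ℕ → Ω → W) (h0 : Up (M 0))
    (hM : ∀ j, M (j + 1) = Op ρ (M j) (ξ j)) :
    ∀ (j : ℕ) (X : Set Ω), X ∈ M j → ∃ N, QQ ρ (M 0) ξ N j X
  | 0, X, hX => ⟨0, hX⟩
  | (j + 1), X, hX => by
    rw [hM j] at hX
    obtain ⟨m, hm⟩ := hX
    have : ∃ N, ¬ {b | QQ ρ (M 0) ξ N j (BB ρ (ξ j) b m X)}.Countable := by
      by_contra hcon
      push Not at hcon
      refine hm ((countable_iUnion hcon).mono fun b hb => ?_)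
      obtain ⟨N, hN⟩ := exists_QQ M ξ h0 hM j _ hb
      exact mem_iUnion.2 ⟨N, hN⟩
    obtain ⟨N, hN⟩ := this
    refine ⟨max m N, fun hc => hN (hc.mono fun b hb => ?_)⟩
    exact QQ_mono h0 (le_max_right m N) j (BB_mono (le_max_left m N) le_rfl) hb

/-- iterated step -/
def Bs (ρ : W → W → ℕ) (ξ : ℕ → Ω → W) (b : ℕ → W) (N : ℕ) : ℕ → Set Ω → Set Ω
  | 0, X => X
  | (j + 1), X => Bs ρ ξ b N j (BB ρ (ξ j) (b j) N X)

theorem Bs_congr {ρ : W → W → ℕ} {ξ : ℕ → Ω → W} {b b' : ℕ → W} {N : ℕ} :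
    ∀ (j : ℕ) (X : Set Ω), (∀ i < j, b i = b' i) → Bs ρ ξ b N j X = Bs ρ ξ b' N j X
  | 0, _, _ => rfl
  | (j + 1), X, h => by
    simp only [Bs]
    rw [h j (Nat.lt_succ_self j)]
    exact Bs_congr j _ fun i hi => h i (Nat.lt_succ_of_lt hi)

theorem exists_Bs {ρ : W → W → ℕ} {ξ : ℕ → Ω → W} {b : ℕ → W} {N : ℕ} (j : ℕ) :
    ∀ (l : ℕ), j ≤ l → ∀ X : Set Ω, ∃ Y, Bs ρ ξ b N l X = Bs ρ ξ b N j Y := by
  intro l hl
  induction l, hl using Nat.le_induction with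
  | base => exact fun X => ⟨X, rfl⟩
  | succ l _ ih => exact fun X => ih _

theorem mem_of_Bs {ρ : W → W → ℕ} {ξ : ℕ → Ω → W} {b : ℕ → W} {N : ℕ} {w : Ω} :
    ∀ (j : ℕ) (X : Set Ω), (∀ i < j, ξ i w < b i) → w ∈ Bs ρ ξ b N j X → w ∈ X
  | 0, _, _, h => h
  | (j + 1), X, hb, h => by
    have h1 := mem_of_Bs j (BB ρ (ξ j) (b j) N X) (fun i hi => hb i (Nat.lt_succ_of_lt hi)) h
    exact h1.2 (hb j (Nat.lt_succ_self j))

theorem exists_kernel {ρ : W → W → ℕ} (h1 : Om1 W)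
    (hρ : ∀ z n, {x | x < z ∧ ρ x z ≤ n}.Finite) {M : Set (Set Ω)} {ξ : ℕ → Ω → W} {N : ℕ} :
    ∀ (j : ℕ) (X : Set Ω), QQ ρ M ξ N j X → ∃ K : Finset W, ∀ Z : Set W, Z.Countable →
      ∃ b : ℕ → W, (∀ i < j, b i ∉ Z ∧ ∀ x, x < b i → ρ x (b i) ≤ N → x ∈ Z → x ∈ K) ∧
        Bs ρ ξ b N j X ∈ M
  | 0, X, h => ⟨∅, fun Z _ => by
      obtain ⟨c, _⟩ := h1.exists_gt ∅ countable_empty
      exact ⟨fun _ => c, fun i hi => absurd hi (Nat.not_lt_zero i), h⟩⟩
  | (j + 1), X, h => by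
    classical
    have ih : ∀ b, QQ ρ M ξ N j (BB ρ (ξ j) b N X) → ∃ K : Finset W, ∀ Z : Set W,
        Z.Countable → ∃ b' : ℕ → W, (∀ i < j, b' i ∉ Z ∧
          ∀ x, x < b' i → ρ x (b' i) ≤ N → x ∈ Z → x ∈ K) ∧
        Bs ρ ξ b' N j (BB ρ (ξ j) b N X) ∈ M :=
      fun b hb => exists_kernel h1 hρ j _ hb
    choose! K hK using ih
    obtain ⟨K0, hK0⟩ := kernel {b | QQ ρ M ξ N j (BB ρ (ξ j) b N X)} h
      (fun b => K b ∪ (hρ b N).toFinset)
    refine ⟨K0, fun Z hZ => ?_⟩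
    obtain ⟨b0, hb0, hb0Z, hb0K⟩ := hK0 Z hZ
    obtain ⟨b', hb', hb'M⟩ := hK b0 hb0 Z hZ
    refine ⟨fun i => if i = j then b0 else b' i, ?_, ?_⟩
    · intro i hi
      by_cases hij : i = j
      · simp only [hij, if_true]
        refine ⟨hb0Z, fun x hx1 hx2 hxZ => hb0K x ?_ hxZ⟩
        rw [Finset.mem_union]
        right
        rw [Set.Finite.mem_toFinset]
        exact ⟨hx1, hx2⟩
      · simp only [hij, if_false]
        have hi' : i < j := by omega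
        refine ⟨(hb' i hi').1, fun x hx1 hx2 hxZ => hb0K x ?_ hxZ⟩
        exact Finset.mem_union_left _ ((hb' i hi').2 x hx1 hx2 hxZ)
    · show Bs ρ ξ (fun i => if i = j then b0 else b' i) N j
        (BB ρ (ξ j) (if j = j then b0 else b' j) N X) ∈ M
      rw [if_pos rfl, Bs_congr (b' := b') j _ (fun i hi => if_neg (by omega))]
      exact hb'M

/-! ### the descent -/

/-- If every good monotone family contains all tails of some function to `ω₁`, then every good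
monotone family contains a sequence of sets whose limsup is empty. -/
theorem descent (h1 : Om1 W) {Sm : Set Ω → Prop}
    (hSm : ∀ S T : Set Ω, S ⊆ T → Sm T → Sm S)
    (hU : ∀ N : Set (Set Ω), Up N → Good Sm N → ∃ ξ : Ω → W, ∀ c, {w | c < ξ w} ∈ N)
    (M0 : Set (Set Ω)) (hup : Up M0) (hgood : Good Sm M0) :
    ∃ X : ℕ → Set Ω, (∀ k, X k ∈ M0) ∧ ∀ w, ¬ ∃ᶠ k in atTop, w ∈ X k := by
  classical
  obtain ⟨ρ, hρb, hρ⟩ := h1.exists_rho1
  -- the sequence of families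
  let T := {N : Set (Set Ω) // Up N ∧ Good Sm N}
  let pick : T → Ω → W := fun N => Classical.choose (hU N.1 N.2.1 N.2.2)
  have hpick : ∀ (N : T) c, {w | c < pick N w} ∈ N.1 :=
    fun N => Classical.choose_spec (hU N.1 N.2.1 N.2.2)
  let nxt : T → T := fun N => ⟨Op ρ N.1 (pick N), up_Op N.2.1, good_Op h1 hSm N.2.2⟩
  let MM : ℕ → T := fun l => Nat.rec ⟨M0, hup, hgood⟩ (fun _ N => nxt N) l
  let M : ℕ → Set (Set Ω) := fun l => (MM l).1
  let ξ : ℕ → Ω → W := fun l => pick (MM l)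
  have hM0 : M 0 = M0 := rfl
  have hMs : ∀ j, M (j + 1) = Op ρ (M j) (ξ j) := fun j => rfl
  have htail : ∀ l c, {w | c < ξ l w} ∈ M l := fun l c => hpick (MM l) c
  have hup0 : Up (M 0) := hup
  -- uniform numbers
  have hN1 : ∀ l, ∃ N, ¬ {c | QQ ρ (M 0) ξ N l {w | c < ξ l w}}.Countable := by
    intro l
    by_contra hcon
    push Not at hcon
    refine h1.unc ((countable_iUnion hcon).mono fun c _ => ?_)
    obtain ⟨N, hN⟩ := exists_QQ M ξ hup0 hMs l _ (htail l c)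
    exact mem_iUnion.2 ⟨N, hN⟩
  choose N' hN' using hN1
  let N : ℕ → ℕ := fun l => ∑ i ∈ Finset.range (l + 1), N' i
  have hNle : ∀ l, N' l ≤ N l := fun l =>
    Finset.single_le_sum (f := N') (fun i _ => Nat.zero_le _) (Finset.mem_range.2 (Nat.lt_succ_self l))
  have hNmono : ∀ l l', l ≤ l' → N l ≤ N l' := fun l l' hll' =>
    Finset.sum_le_sum_of_subset (Finset.range_mono (by omega))
  have hN : ∀ l, ¬ {c | QQ ρ (M 0) ξ (N l) l {w | c < ξ l w}}.Countable := fun l hc =>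
    hN' l (hc.mono fun c hcc => QQ_mono hup0 (hNle l) l le_rfl hcc)
  -- kernels
  have hK : ∀ l, ∃ K : Finset W, ∀ Z : Set W, Z.Countable → ∃ (c : W) (b : ℕ → W), c ∉ Z ∧
      (∀ i < l, b i ∉ Z ∧ ∀ x, x < b i → ρ x (b i) ≤ N l → x ∈ Z → x ∈ K) ∧
        Bs ρ ξ b (N l) l {w | c < ξ l w} ∈ M 0 := by
    intro l
    have ih : ∀ c, QQ ρ (M 0) ξ (N l) l {w | c < ξ l w} → ∃ K : Finset W, ∀ Z : Set W,
        Z.Countable → ∃ b : ℕ → W, (∀ i < l, b i ∉ Z ∧
          ∀ x, x < b i → ρ x (b i) ≤ N l → x ∈ Z → x ∈ K) ∧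
        Bs ρ ξ b (N l) l {w | c < ξ l w} ∈ M 0 := fun c hc => exists_kernel h1 hρ l _ hc
    choose! K hK using ih
    obtain ⟨K0, hK0⟩ := kernel {c | QQ ρ (M 0) ξ (N l) l {w | c < ξ l w}} (hN l) K
    refine ⟨K0, fun Z hZ => ?_⟩
    obtain ⟨c, hc, hcZ, hcK⟩ := hK0 Z hZ
    obtain ⟨b, hb, hbM⟩ := hK c hc Z hZ
    exact ⟨c, b, hcZ, fun i hi => ⟨(hb i hi).1, fun x hx1 hx2 hxZ =>
      hcK x ((hb i hi).2 x hx1 hx2 hxZ) hxZ⟩, hbM⟩
  choose K hK using hK
  obtain ⟨γ0, hγ0⟩ := h1.exists_gt (⋃ l, (K l : Set W))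
    (countable_iUnion fun l => (K l).countable_toSet)
  have hγ0' : ∀ l, ∀ x ∈ K l, x < γ0 := fun l x hx => hγ0 x (mem_iUnion.2 ⟨l, hx⟩)
  -- one step of the choice
  have hstep : ∀ (l : ℕ) (γ : W), ∃ (c : W) (b : ℕ → W) (γ' : W), γ ≤ c ∧ γ < γ' ∧
      (∀ i < l, γ ≤ b i ∧ b i < γ' ∧ ∀ x, x < b i → ρ x (b i) ≤ N l → x < γ → x < γ0) ∧
        Bs ρ ξ b (N l) l {w | c < ξ l w} ∈ M 0 := by
    intro l γ
    obtain ⟨c, b, hc, hb, hbM⟩ := hK l (Iio γ) (h1.cnt γ)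
    obtain ⟨γ', hγ'⟩ := h1.exists_gt (insert γ (b '' (Iio l)))
      (((to_countable (Iio l)).image b).insert γ)
    refine ⟨c, b, γ', not_lt.1 hc, hγ' γ (mem_insert _ _), fun i hi => ⟨not_lt.1 (hb i hi).1,
      hγ' _ (mem_insert_of_mem _ ⟨i, hi, rfl⟩), fun x hx1 hx2 hx3 =>
        hγ0' l x ((hb i hi).2 x hx1 hx2 hx3)⟩, hbM⟩
  choose c b γ' hc hγγ hb hbM using hstep
  let γ : ℕ → W := fun l => Nat.rec γ0 (fun l g => γ' l g) l
  have hγs : ∀ l, γ (l + 1) = γ' l (γ l) := fun l => rfl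
  have hγlt : ∀ l, γ l < γ (l + 1) := fun l => hγγ l (γ l)
  have hγmono : Monotone γ := monotone_nat_of_le_succ fun l => (hγlt l).le
  have hγ00 : ∀ l, γ0 ≤ γ l := fun l => hγmono (Nat.zero_le l)
  refine ⟨fun l => Bs ρ ξ (b l (γ l)) (N l) l {w | c l (γ l) < ξ l w}, fun l => hbM l (γ l), ?_⟩
  intro w hw
  by_cases hex : ∃ j, γ0 ≤ ξ j w
  swap
  · push Not at hex
    obtain ⟨l, hl⟩ := hw.exists
    have h2 := mem_of_Bs l _ (fun i hi => (hex i).trans_le ((hγ00 l).trans (hb l (γ l) i hi).1)) hl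
    have h3 : c l (γ l) < ξ l w := h2
    exact absurd (h3.trans (hex l)) (not_lt.2 ((hγ00 l).trans (hc l (γ l))))
  · let j := Nat.find hex
    have hj : γ0 ≤ ξ j w := Nat.find_spec hex
    have hjm : ∀ i < j, ξ i w < γ0 := fun i hi => not_le.1 (Nat.find_min hex hi)
    -- condition at stage j
    have hC : ∀ l, j < l → w ∈ Bs ρ ξ (b l (γ l)) (N l) l {w | c l (γ l) < ξ l w} →
        sy ρ (b l (γ l) j) (ξ j w) ≤ N l := by
      intro l hjl hwl
      obtain ⟨Y, hY⟩ := exists_Bs (ρ := ρ) (ξ := ξ) (b := b l (γ l)) (N := N l) (j + 1) l hjl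
        {w | c l (γ l) < ξ l w}
      rw [hY] at hwl
      have h2 := mem_of_Bs j (BB ρ (ξ j) (b l (γ l) j) (N l) Y)
        (fun i hi => (hjm i hi).trans_le ((hγ00 l).trans (hb l (γ l) i (hi.trans hjl)).1)) hwl
      exact h2.1
    -- case A kills all later indices
    have hA : ∀ l l', j < l → l < l' → ξ j w < b l (γ l) j →
        sy ρ (b l' (γ l') j) (ξ j w) ≤ N l' → False := by
      intro l l' hjl hll' hlt hle
      have h2 : ξ j w < γ (l + 1) := hlt.trans (hb l (γ l) j hjl).2.1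
      have h3 : ξ j w < γ l' := h2.trans_le (hγmono hll')
      have h4 : ξ j w < b l' (γ l') j := h3.trans_le (hb l' (γ l') j (hjl.trans hll')).1
      unfold sy at hle
      rw [if_pos h4] at hle
      exact absurd ((hb l' (γ l') j (hjl.trans hll')).2.2 _ h4 hle h3) (not_lt.2 hj)
    -- two cases B are contradictory
    have hBB : ∀ l l', j < l → l < l' → b l (γ l) j ≤ ξ j w → b l' (γ l') j ≤ ξ j w →
        sy ρ (b l (γ l) j) (ξ j w) ≤ N l → sy ρ (b l' (γ l') j) (ξ j w) ≤ N l' → False := by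
      intro l l' hjl hll' h2 h3 h4 h5
      have hlt : b l (γ l) j < b l' (γ l') j :=
        ((hb l (γ l) j hjl).2.1.trans_le (hγmono (show l + 1 ≤ l' from hll'))).trans_le
          (hb l' (γ l') j (hjl.trans hll')).1
      have hlt' : b l (γ l) j < γ l' :=
        (hb l (γ l) j hjl).2.1.trans_le (hγmono (show l + 1 ≤ l' from hll'))
      have h6 : ρ (b l (γ l) j) (ξ j w) ≤ N l := by
        unfold sy at h4
        rw [if_neg (not_lt.2 h2), if_pos (hlt.trans_le h3)] at h4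
        exact h4
      have h7 : ρ (b l (γ l) j) (b l' (γ l') j) ≤ N l' := by
        rcases h3.lt_or_eq with h3' | h3'
        · have h8 : ρ (b l' (γ l') j) (ξ j w) ≤ N l' := by
            unfold sy at h5
            rw [if_neg (not_lt.2 h3), if_pos h3'] at h5
            exact h5
          exact (hρb _ _ _ hlt h3').trans (max_le (h6.trans (hNmono _ _ hll'.le)) h8)
        · rw [h3']
          exact h6.trans (hNmono _ _ hll'.le)
      have h9 := (hb l' (γ l') j (hjl.trans hll')).2.2 _ hlt h7 hlt'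
      exact absurd h9 (not_lt.2 ((hγ00 l).trans (hb l (γ l) j hjl).1))
    -- three indices
    obtain ⟨l1, hl1, hw1⟩ := (frequently_atTop.1 hw) (j + 1)
    obtain ⟨l2, hl2, hw2⟩ := (frequently_atTop.1 hw) (l1 + 1)
    obtain ⟨l3, hl3, hw3⟩ := (frequently_atTop.1 hw) (l2 + 1)
    have hc1 := hC l1 (by omega) hw1
    have hc2 := hC l2 (by omega) hw2
    have hc3 := hC l3 (by omega) hw3
    rcases lt_or_ge (ξ j w) (b l1 (γ l1) j) with hh1 | hh1
    · exact hA l1 l2 (by omega) (by omega) hh1 hc2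
    · rcases lt_or_ge (ξ j w) (b l2 (γ l2) j) with hh2 | hh2
      · exact hA l2 l3 (by omega) (by omega) hh2 hc3
      · exact hBB l1 l2 (by omega) (by omega) hh1 hh2 hc1 hc2

end

end Pool.Agent.H18.Star
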