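import Pool.Agent.H18.Star.Core
import Pool.Agent.H93.Cwh.FromStar

/-!
# There is no two-sided continuous monotone family on `ω₂`
-/

namespace Pool.Agent.H18.Star

open Set Filter Cardinal

/-- the countable ordinals -/
abbrev W1 := (ℵ₁ : Cardinal.{0}).ord.ToType

/-- the ordinals below `ω₂` -/
abbrev W2 := (ℵ_ 2 : Cardinal.{0}).ord.ToType

theorem om1_W1 : Om1 W1 where
  cnt a := by
    have h : #(Iio a) < ℵ₁ := (Cardinal.mk_Iio_lt a (by simp)).trans_le (mk_ord_toType _).le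
    have h2 : #(Iio a) < Order.succ ℵ₀ := h.trans_le succ_aleph0.ge
    exact Cardinal.le_aleph0_iff_set_countable.1 (Order.lt_succ_iff.1 h2)
  unc h := by
    have h2 := Cardinal.le_aleph0_iff_set_countable.2 h
    rw [mk_univ, mk_ord_toType] at h2
    exact absurd aleph0_lt_aleph_one (not_lt.2 h2)

theorem aleph_two_eq : (ℵ_ 2 : Cardinal.{0}) = Order.succ ℵ₁ := by
  rw [Cardinal.succ_aleph]
  norm_num

theorem mk_W2 : #W2 = ℵ_ 2 := mk_ord_toType _

theorem mk_W1 : #W1 = ℵ₁ := mk_ord_toType _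

theorem aleph0_le1 : (ℵ₀ : Cardinal.{0}) ≤ ℵ₁ := Cardinal.aleph0_le_aleph 1

theorem mk_Iio_W2 (a : W2) : #(Iio a) ≤ ℵ₁ := by
  have h : #(Iio a) < ℵ_ 2 := (Cardinal.mk_Iio_lt a (by simp)).trans_le (mk_ord_toType _).le
  exact Order.lt_succ_iff.1 (h.trans_eq aleph_two_eq)

theorem mk_Iic_W2 (a : W2) : #(Iic a) ≤ ℵ₁ := by
  have : Iic a = insert a (Iio a) := by ext x; simp [le_iff_eq_or_lt]
  rw [this]
  refine (mk_insert_le).trans ?_
  exact Cardinal.add_le_of_le aleph0_le1 (mk_Iio_W2 a)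
    ((Cardinal.one_lt_aleph0.le).trans aleph0_le1)

theorem small_iUnion {ι : Type} (hι : #ι ≤ ℵ₁) (f : ι → Set W2) (hf : ∀ i, #(f i) ≤ ℵ₁) :
    #(⋃ i, f i : Set W2) ≤ ℵ₁ := by
  refine (Cardinal.mk_iUnion_le f).trans ?_
  refine (mul_le_mul' hι (ciSup_le' hf)).trans ?_
  exact (Cardinal.mul_eq_self aleph0_le1).le

theorem not_small_univ : ¬ #(univ : Set W2) ≤ ℵ₁ := by
  rw [mk_univ, mk_W2, aleph_two_eq, not_le]
  exact Order.lt_succ _

theorem exists_rho2 : ∃ ρ : W2 → W2 → W1,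
    (∀ x y z, x < y → y < z → ρ x y ≤ max (ρ x z) (ρ y z)) ∧
      ∀ z c, {x | x < z ∧ ρ x z ≤ c}.Countable := by
  classical
  have hinj : ∀ z : W2, ∃ f : W2 → W1, InjOn f (Iio z) := by
    intro z
    have h : #(Iio z) ≤ #W1 := (mk_Iio_W2 z).trans mk_W1.ge
    obtain ⟨f⟩ := h
    have : Nonempty W1 := by
      by_contra hne
      rw [not_nonempty_iff] at hne
      exact om1_W1.unc (to_countable _)
    refine ⟨fun x => if hx : x < z then f ⟨x, hx⟩ else Classical.arbitrary W1, ?_⟩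
    intro x hx y hy hxy
    have hx' : x < z := hx
    have hy' : y < z := hy
    simp only [hx', hy', dif_pos] at hxy
    exact congrArg Subtype.val (f.injective hxy)
  choose e he using hinj
  have hIic : ∀ a : W1, (Iic a).Countable := fun a => by
    have : Iic a = insert a (Iio a) := by ext x; simp [le_iff_eq_or_lt]
    rw [this]
    exact (om1_W1.cnt a).insert a
  have hcnt : ∀ z c, {x | x < z ∧ e z x ≤ c}.Countable := by
    intro z c
    refine Set.countable_of_injective_of_countable_image (f := e z) ((he z).mono ?_)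
      ((hIic c).mono ?_)
    · rintro x hx
      exact hx.1
    · rintro _ ⟨x, hx, rfl⟩
      exact hx.2
  obtain ⟨ρ, h1, h2⟩ := exists_rho e (by
    intro z k g
    obtain ⟨c, hc⟩ := om1_W1.exists_gt _
      (((hcnt z k).prod (hcnt z k)).image (fun p : W2 × W2 => g p.1 p.2))
    refine ⟨c, fun x x' hx hx' h1 h2 => ?_⟩
    have hmem : g x x' ∈ (fun p : W2 × W2 => g p.1 p.2) ''
        ({x | x < z ∧ e z x ≤ k} ×ˢ {x | x < z ∧ e z x ≤ k}) :=
      ⟨(x, x'), ⟨⟨hx, h1⟩, ⟨hx', h2⟩⟩, rfl⟩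
    exact (hc _ hmem).le)
  refine ⟨ρ, h1, fun z n => (hcnt z n).mono ?_⟩
  rintro x ⟨hx1, hx2⟩
  exact ⟨hx1, (h2 x z).trans hx2⟩

/-- step of the choice of a far sequence -/
theorem far_step {ρ : W2 → W2 → W1} (hρ : ∀ z c, {x | x < z ∧ ρ x z ≤ c}.Countable) (c : W1)
    (T : Set W2) (hT : ¬ #T ≤ ℵ₁) : ∃ α ∈ T, ¬ #{α' ∈ T | α < α' ∧ c < ρ α α'} ≤ ℵ₁ := by
  by_contra hcon
  push Not at hcon
  obtain ⟨A, hAT, hA⟩ := Cardinal.le_mk_iff_exists_subset.1 (not_le.1 hT).le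
  have hB : #(⋃ α : A, ({α' ∈ T | α.1 < α' ∧ c < ρ α.1 α'} ∪ Iic α.1) : Set W2) ≤ ℵ₁ := by
    refine small_iUnion hA.le _ fun α => ?_
    refine (mk_union_le _ _).trans ?_
    exact Cardinal.add_le_of_le aleph0_le1 (hcon α.1 (hAT α.2)) (mk_Iic_W2 _)
  obtain ⟨α', hα'T, hα'⟩ : ∃ α' ∈ T,
      α' ∉ (⋃ α : A, ({α' ∈ T | α.1 < α' ∧ c < ρ α.1 α'} ∪ Iic α.1) : Set W2) := by
    by_contra h
    push Not at h
    exact hT ((mk_le_mk_of_subset h).trans hB)
  have hAc : A ⊆ {x | x < α' ∧ ρ x α' ≤ c} := by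
    intro α hα
    have h1 : α' ∉ ({β ∈ T | α < β ∧ c < ρ α β} ∪ Iic α : Set W2) := fun h =>
      hα' (mem_iUnion.2 ⟨⟨α, hα⟩, h⟩)
    rw [mem_union, not_or] at h1
    have h2 : α < α' := not_le.1 h1.2
    refine ⟨h2, ?_⟩
    by_contra h3
    exact h1.1 ⟨hα'T, h2, not_le.1 h3⟩
  have h4 := Cardinal.le_aleph0_iff_set_countable.2 ((hρ α' c).mono hAc)
  rw [hA] at h4
  exact absurd aleph0_lt_aleph_one (not_lt.2 h4)

theorem far_seq {ρ : W2 → W2 → W1} (hρ : ∀ z c, {x | x < z ∧ ρ x z ≤ c}.Countable) (c : W1)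
    (T : Set W2) (hT : ¬ #T ≤ ℵ₁) : ∃ α : ℕ → W2, (∀ k, α k ∈ T) ∧
      ∀ i j, i < j → α i < α j ∧ c < ρ (α i) (α j) := by
  classical
  let S := {T : Set W2 // ¬ #T ≤ ℵ₁}
  choose a haT ha using fun (T : S) => far_step hρ c T.1 T.2
  let nxt : S → S := fun T => ⟨_, ha T⟩
  let TT : ℕ → S := fun k => Nat.rec ⟨T, hT⟩ (fun _ T => nxt T) k
  have hTT : ∀ k, TT (k + 1) = nxt (TT k) := fun k => rfl
  have hsub : ∀ i j, i ≤ j → (TT j).1 ⊆ (TT i).1 := by
    intro i j hij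
    induction j, hij using Nat.le_induction with
    | base => exact le_refl _
    | succ j _ ih =>
      rw [hTT]
      exact fun x hx => ih hx.1
  refine ⟨fun k => a (TT k), fun k => hsub 0 k (Nat.zero_le k) (haT _), ?_⟩
  intro i j hij
  have h1 : a (TT j) ∈ (TT (i + 1)).1 := hsub (i + 1) j hij (haT _)
  rw [hTT] at h1
  exact h1.2

/-- every good monotone family on `ω₂` contains all tails of some function to `ω₁` -/
theorem exists_tails (N : Set (Set W2)) (hN : Good (fun S : Set W2 => #S ≤ ℵ₁) N) :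
    ∃ ξ : W2 → W1, ∀ c, {w | c < ξ w} ∈ N := by
  classical
  obtain ⟨ρ, h1, h2⟩ := exists_rho2
  by_contra hcon
  push Not at hcon
  choose c hc using fun α : W2 => hcon (fun w => ρ α w)
  obtain ⟨c0, hc0⟩ : ∃ c0, ¬ #{α | c α = c0} ≤ ℵ₁ := by
    by_contra h
    push Not at h
    refine not_small_univ ((mk_le_mk_of_subset ?_).trans (small_iUnion mk_W1.le _ h))
    intro α _
    exact mem_iUnion.2 ⟨c α, rfl⟩
  obtain ⟨α, hα, hfar⟩ := far_seq h2 c0 _ hc0
  refine hN (fun k => {w | c0 < ρ (α k) w}) (fun k => ?_) ?_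
  · have h3 := hc (α k)
    rw [show c (α k) = c0 from hα k] at h3
    exact h3
  · refine (mk_le_mk_of_subset ?_).trans (small_iUnion (ι := ℕ)
      ((mk_nat).le.trans aleph0_le1) (fun k => Iic (α k)) fun k => mk_Iic_W2 _)
    intro w hw
    by_contra hcon2
    have hgt : ∀ k, α k < w := fun k => by
      by_contra h
      exact hcon2 (mem_iUnion.2 ⟨k, not_lt.1 h⟩)
    obtain ⟨k, -, hk⟩ := (frequently_atTop.1 hw) 0
    obtain ⟨l, hl, hl'⟩ := (frequently_atTop.1 hw) (k + 1)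
    have h4 : ρ (α k) w ≤ c0 := not_lt.1 hk
    have h5 : ρ (α l) w ≤ c0 := not_lt.1 hl'
    have h6 := hfar k l hl
    exact absurd ((h1 _ _ _ h6.1 (hgt l)).trans (max_le h4 h5)) (not_le.2 h6.2)

/-- (STAR): an upward closed family of subsets of `ω₂` is not two-sided continuous. -/
theorem star_aux (M : Set (Set W2)) (hup : ∀ X Y : Set W2, X ⊆ Y → X ∈ M → Y ∈ M) :
    (∃ X : ℕ → Set W2, (∀ k, X k ∉ M) ∧ #{w | ∃ᶠ k in atTop, w ∉ X k} ≤ ℵ₁) ∨
      ∃ X : ℕ → Set W2, (∀ k, X k ∈ M) ∧ ∀ w, ¬ ∃ᶠ k in atTop, w ∈ X k := by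
  by_cases hg : Good (fun S : Set W2 => #S ≤ ℵ₁) M
  · right
    exact descent om1_W1 (fun S T hST hT => (mk_le_mk_of_subset hST).trans hT)
      (fun N _ hN => exists_tails N hN) M hup hg
  · left
    unfold Good at hg
    push Not at hg
    exact hg

/-- (STAR) in the form used for the application to collectionwise Hausdorff spaces. -/
theorem star : Pool.Agent.H93.Cwh.Star W2 := by
  intro M hM
  rcases star_aux M (fun X Y hXY hX => hM X hX Y hXY) with h | ⟨X, hX, hw⟩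
  · exact Or.inl h
  · exact Or.inr ⟨X, hX, fun w => not_frequently.1 (hw w)⟩

end Pool.Agent.H18.Star
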